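import Pool.Agent.N39.RW.Pages

set_option autoImplicit false

/-!
# The tuples `n, a_1 n + 1, ..., a_s n + 1`: one prime, one product of two primes, the others almost prime, in all
# windows around a positive proportion of the integers, between powers, and at a positive proportion of the distances
-/

namespace Pool.Agent.Results.MP_bca3e5_nt.ChenTypeWindows

open Filter

/-- the members of the tuple: `n` (number `0`) and the numbers `a l n + 1` -/
def member {s : ℕ} (a : Fin s → ℕ) (l : Fin (s + 1)) (n : ℕ) : ℕ :=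
  (Fin.cons n (fun l => a l * n + 1) : Fin (s + 1) → ℕ) l

/-- the member `i` is prime, the member `j` is a product of at most two primes, and all members are products of at
most `r` primes, all larger than `z` -/
def Good {s : ℕ} (a : Fin s → ℕ) (i j : Fin (s + 1)) (r : ℕ) (z : ℝ) (n : ℕ) : Prop :=
  (member a i n).Prime ∧ (member a j n).primeFactorsList.length ≤ 2 ∧
    ∀ l, (member a l n).primeFactorsList.length ≤ r ∧ ∀ q : ℕ, q.Prime → q ∣ member a l n → z < (q : ℝ)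

/-- all prime factors of all members are larger than `z` -/
def Sieved {s : ℕ} (a : Fin s → ℕ) (z : ℝ) (n : ℕ) : Prop :=
  ∀ l, ∀ q : ℕ, q.Prime → q ∣ member a l n → z < (q : ℝ)

/-- `t` is regular: in ALL windows `(u, v]` with `u ≤ t ≤ v` and `K (log t) ^ (s + 1) ≤ v - u ≤ t` there are at
least `c₁ (v - u) / (log t) ^ (s + 1)` good `n`, and at most `c₂ (v - u) / (log t) ^ (s + 1)` sieved `n`. -/
def Regular {s : ℕ} (a : Fin s → ℕ) (i j : Fin (s + 1)) (r : ℕ) (c₁ c₂ K : ℝ) (t : ℕ) : Prop :=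
  ∀ u v : ℕ, u ≤ t → t ≤ v → K * Real.log t ^ (s + 1) ≤ (v : ℝ) - u → (v : ℝ) - u ≤ t →
    c₁ * ((v : ℝ) - u) / Real.log t ^ (s + 1) ≤
      ({n : ℕ | u < n ∧ n ≤ v ∧ Good a i j r ((t : ℝ) ^ (1 / (r : ℝ))) n}.ncard : ℝ) ∧
    ({n : ℕ | u < n ∧ n ≤ v ∧ Sieved a ((t : ℝ) ^ (1 / (r : ℝ))) n}.ncard : ℝ) ≤
      c₂ * ((v : ℝ) - u) / Real.log t ^ (s + 1)

theorem result (s : ℕ) (a : Fin s → ℕ) (ha : ∀ l, 0 < a l) (hinj : Function.Injective a)
    (hadm : ∀ p : ℕ, p.Prime → ∃ n : ℕ, ¬ p ∣ n * ∏ l, (a l * n + 1)) (i j : Fin (s + 1)) (hij : i ≠ j) :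
    ∃ r : ℕ, 1 ≤ r ∧
    (∃ c₁ c₂ K : ℝ, 0 < c₁ ∧ 0 < c₂ ∧ 0 < K ∧
      (∃ μ : ℝ, 0 < μ ∧ ∀ᶠ x : ℕ in atTop,
        μ * x ≤ ({t : ℕ | t ≤ x ∧ Regular a i j r c₁ c₂ K t}.ncard : ℝ)) ∧
      ∀ e : ℕ, 2 ≤ e → ∃ ν : ℝ, 0 < ν ∧ ∀ᶠ N : ℕ in atTop, ν * N ≤
        ({m : ℕ | N ≤ m ∧ m < 2 * N ∧
          ν * (m : ℝ) ^ (e - 1) ≤ ({t : ℕ | m ^ e < t ∧ t < (m + 1) ^ e ∧ Regular a i j r c₁ c₂ K t}.ncard : ℝ) ∧
          ν * (m : ℝ) ^ (e - 1) / Real.log m ^ (s + 1) ≤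
            ({n : ℕ | m ^ e < n ∧ n < (m + 1) ^ e ∧ Good a i j r ((m : ℝ) ^ ((e : ℝ) / r)) n}.ncard : ℝ)}.ncard : ℝ)) ∧
    ∃ c C K : ℝ, 0 < c ∧ 0 < C ∧ 0 < K ∧ ∀ᶠ X : ℕ in atTop,
      ∀ H : ℕ, K * Real.log X ^ (s + 1) ≤ H → H ≤ X →
      c * H ≤ ({d : ℕ | 1 ≤ d ∧ d ≤ H ∧
        c * X / Real.log X ^ (2 * (s + 1)) ≤ ({n : ℕ | X < n ∧ n + d ≤ 2 * X ∧
          Good a i j r ((X : ℝ) ^ (1 / (r : ℝ))) n ∧ Good a i j r ((X : ℝ) ^ (1 / (r : ℝ))) (n + d)}.ncard : ℝ) ∧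
        ({n : ℕ | X < n ∧ n + d ≤ 2 * X ∧
          Sieved a ((X : ℝ) ^ (1 / (r : ℝ))) n ∧ Sieved a ((X : ℝ) ^ (1 / (r : ℝ))) (n + d)}.ncard : ℝ) ≤
            C * X / Real.log X ^ (2 * (s + 1))}.ncard : ℝ) := by
  have hF : ∀ (l : Fin (s + 1)) (n : ℕ), 1 ≤ n → ((member a l n : ℕ) : ℤ) =
      (((Fin.cons 1 a : Fin (s + 1) → ℕ) l : ℕ) : ℤ) * n + (Fin.cons 0 (fun _ => 1) : Fin (s + 1) → ℤ) l := by
    intro l n _
    unfold member
    refine Fin.cases ?_ (fun l => ?_) l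
    · simp
    · simp
  obtain ⟨r, hr, H⟩ := Pool.Agent.N39.RW.pageL (Fin.cons 1 a : Fin (s + 1) → ℕ)
    (Fin.cons 0 (fun _ => 1) : Fin (s + 1) → ℤ)
    (by
      intro l
      refine Fin.cases ?_ (fun l => ?_) l
      · simp
      · simpa using ha l)
    (by
      intro l l'
      refine Fin.cases ?_ (fun l => ?_) l
      · refine Fin.cases ?_ (fun l' => ?_) l'
        · intros; rfl
        · intro _ h
          simp at h
      · refine Fin.cases ?_ (fun l' => ?_) l'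
        · intro _ h
          simp at h
        · intro h _
          simp only [Fin.cons_succ] at h
          rw [hinj h])
    (by
      intro p hp
      obtain ⟨n, hn⟩ := hadm p hp
      rcases Nat.eq_zero_or_pos n with h0 | h0
      · exfalso
        apply hn
        rw [h0, zero_mul]
        exact dvd_zero p
      · refine ⟨n, fun l => ?_⟩
        rw [← hF l n h0]
        intro hd
        have h1 : p ∣ member a l n := by exact_mod_cast hd
        apply hn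
        revert h1
        unfold member
        refine Fin.cases ?_ (fun l => ?_) l
        · intro h1
          exact (by simpa using h1 : p ∣ n).mul_right _
        · intro h1
          have h2 : p ∣ a l * n + 1 := by simpa using h1
          exact (h2.trans (Finset.dvd_prod_of_mem (fun l => a l * n + 1) (Finset.mem_univ l))).mul_left n)
    (member a) hF i j hij
  obtain ⟨⟨c₁, c₂, K, hc₁, hc₂, hK, huse⟩, hdiff⟩ := H i j (Or.inl ⟨rfl, rfl⟩)
  exact ⟨r, hr, ⟨c₁, c₂, K, hc₁, hc₂, hK, huse (Regular a i j r c₁ c₂ K) (fun t ht => ht)⟩, hdiff⟩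

end Pool.Agent.Results.MP_bca3e5_nt.ChenTypeWindows
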