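import Pool.Agent.TH977.PW.Inst

set_option autoImplicit false

/-!
# Regular neighbourhoods of the primes `n` for which all `a i n + b i` are prime

Let `a i n + b i`, `i < k`, be distinct linear forms with integers `a i > 0`, `b i ≠ 0` (for instance
`b i = 1`) such that no prime divides `n ∏ (a i n + b i)` for all `n`. Let `R r` be the set of the `n` for
which all prime factors of `n` and of all `a i n + b i` are larger than `n ^ (1 / r)`; it contains all
large primes `n` for which all `a i n + b i` are prime. There are at least `κ X / log ^ (k + 1) X` primes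
`n` in `(X, 2 X]` which belong to `R r` and for which all `a i n + b i` have at most `r` prime factors.
Let `A` be an ARBITRARY subset of `R r` (for example the set of all the large primes `n` for which all
`a i n + b i` are prime). In every short interval `(X, X + Y]`, `X ^ θ ≤ Y ≤ X / 2`, all but
`ε Y / log ^ (k + 1) X` of the elements of `A` are regular points of `A`: the elements of `A` in ALL
intervals of length between `log ^ (k + 1) X / c` and `Y` around them have the right order, and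
constant density up to `δ` at all but `B (ε, δ)` dyadic scales.
-/

namespace Pool.Agent.Results.MP_bca3e5_nt.RegularNeighbourhoods

open Finset Filter
open Pool.Agent.TH977.PW (N Irregular)

/-- `n ∏ (a i n + b i)` has no fixed prime divisor. -/
def Admissible {k : ℕ} (a : Fin k → ℕ) (b : Fin k → ℤ) : Prop :=
  ∀ p : ℕ, p.Prime → ∃ n : ℕ, ¬ (p : ℤ) ∣ n * ∏ i, (a i * n + b i)

/-- All prime factors of `n` and of all `a i n + b i` are larger than `n ^ (1 / r)`. -/
def R {k : ℕ} (a : Fin k → ℕ) (b : Fin k → ℤ) (r : ℕ) : Set ℕ :=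
  {n | ∀ p : ℕ, p.Prime → (p ∣ n ∨ ∃ i, (p : ℤ) ∣ a i * n + b i) → (n : ℝ) ^ (1 / (r : ℝ)) < p}

/-- the primes `n` in `R r` for which all `a i n + b i` have at most `r` prime factors, counted with
multiplicity -/
def Almost {k : ℕ} (a : Fin k → ℕ) (b : Fin k → ℤ) (r : ℕ) : Set ℕ :=
  {n | n.Prime ∧ n ∈ R a b r ∧ ∀ i, (a i * n + b i).natAbs.primeFactorsList.length ≤ r}

theorem adm' {k : ℕ} (a : Fin k → ℕ) (b : Fin k → ℤ) (hadm : Admissible a b) (p : ℕ) (hp : p.Prime) :
    ∃ m : ℕ, ¬ p ∣ m ∧ ∀ i, ¬ (p : ℤ) ∣ (a i : ℤ) * m + b i := by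
  obtain ⟨n, hn⟩ := hadm p hp
  refine ⟨n, fun h => hn ?_, fun i h => hn ?_⟩
  · exact (Int.natCast_dvd_natCast.2 h).mul_right _
  · exact (h.trans (Finset.dvd_prod_of_mem (fun i => (a i : ℤ) * n + b i) (mem_univ i))).mul_left _

/-- the large primes `n` for which all `a i n + b i` are prime belong to `R r` -/
theorem large {k : ℕ} (a : Fin k → ℕ) (b : Fin k → ℤ) (ha : ∀ i, 0 < a i) :
    ∀ᶠ q : ℕ in atTop, ∀ r : ℕ, 2 ≤ r → q.Prime →
      (∀ i, ∃ p : ℕ, p.Prime ∧ a i * (q : ℤ) + b i = p) → q ∈ R a b r := by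
  filter_upwards [eventually_ge_atTop (2 * (∑ i, (b i).natAbs) + 5)] with q hq r hr hqp hall
  have hq0 : (0 : ℝ) < q := by exact_mod_cast hqp.pos
  have hq1 : (1 : ℝ) ≤ q := by exact_mod_cast hqp.pos
  have hsq : (q : ℝ) ^ (1 / (r : ℝ)) ≤ √q := by
    rw [Real.sqrt_eq_rpow]
    apply Real.rpow_le_rpow_of_exponent_le hq1
    have h2 : (2 : ℝ) ≤ r := by exact_mod_cast hr
    exact one_div_le_one_div_of_le (by norm_num) h2
  intro p hp h
  rcases h with h | ⟨i, h⟩
  · exact Pool.Agent.TH977.PW.rpow_lt_dvd r q p hr hqp hp h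
  · obtain ⟨P, hP, hPe⟩ := hall i
    rw [hPe] at h
    have hpP : p = P := (Nat.prime_dvd_prime_iff_eq hp hP).1 (by exact_mod_cast h)
    subst hpP
    have h1 : (b i).natAbs ≤ ∑ i, (b i).natAbs :=
      Finset.single_le_sum (f := fun i => (b i).natAbs) (fun _ _ => Nat.zero_le _) (mem_univ i)
    have h2 : (q : ℤ) ≤ a i * q := by
      have h3 : (1 : ℤ) ≤ a i := by exact_mod_cast ha i
      have h4 : (0 : ℤ) ≤ q := by positivity
      nlinarith
    have h3 : q + 5 ≤ 2 * p := by omega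
    have h4 : (q : ℝ) + 5 ≤ 2 * p := by exact_mod_cast h3
    have h5 : √(q : ℝ) * √q = q := Real.mul_self_sqrt hq0.le
    nlinarith [sq_nonneg (√(q : ℝ) - 1)]

/-- **Regular neighbourhoods of the primes `n` for which all `a i n + b i` are prime.** -/
theorem result (k : ℕ) (a : Fin k → ℕ) (b : Fin k → ℤ) (ha : ∀ i, 0 < a i) (hb : ∀ i, b i ≠ 0)
    (hinj : ∀ i j, a i = a j → b i = b j → i = j) (hadm : Admissible a b)
    (θ : ℝ) (hθ : 0 < θ) (hθ1 : θ ≤ 1) :
    ∃ r₀ : ℕ, 2 ≤ r₀ ∧ ∀ r : ℕ, r₀ ≤ r →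
      -- the large primes with the property of the question belong to `R r`
      (∀ᶠ n : ℕ in atTop, n.Prime → (∀ i, ∃ p : ℕ, p.Prime ∧ a i * (n : ℤ) + b i = p) →
        n ∈ R a b r) ∧
      -- lower bound for the primes in `R r`
      (∃ κ : ℝ, 0 < κ ∧ ∀ᶠ X : ℕ in atTop,
        κ * X / Real.log X ^ (k + 1) ≤ N (Almost a b r) X (2 * X)) ∧
      -- regular neighbourhoods of the elements of an arbitrary subset of `R r`
      ∀ ε : ℝ, 0 < ε → ∃ c : ℝ, 0 < c ∧ ∀ δ : ℝ, 0 < δ → ∃ B : ℕ,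
        ∀ᶠ X : ℕ in atTop, ∀ Y : ℕ, (X : ℝ) ^ θ ≤ Y → 2 * Y ≤ X → ∀ A : Set ℕ, A ⊆ R a b r →
          (N (Irregular A (k + 1) c δ B X Y) X (X + Y) : ℝ) ≤ ε * Y / Real.log X ^ (k + 1) := by
  have hcop : ∀ i, IsCoprime (a i : ℤ) (b i) := by
    intro i
    rw [Int.isCoprime_iff_gcd_eq_one]
    by_contra hne
    obtain ⟨p, hp, hpd⟩ := Nat.exists_prime_and_dvd hne
    have h1 : (p : ℤ) ∣ (a i : ℤ) := (Int.natCast_dvd_natCast.2 hpd).trans (Int.gcd_dvd_left ..)
    have h2 : (p : ℤ) ∣ b i := (Int.natCast_dvd_natCast.2 hpd).trans (Int.gcd_dvd_right ..)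
    obtain ⟨m, -, h3⟩ := adm' a b hadm p hp
    exact h3 i (dvd_add (h1.mul_right _) h2)
  obtain ⟨r0, hr0, h⟩ := Pool.Agent.TH977.PW.final_lin_prime a b ha hcop hinj
    (fun i h1 => hb i h1.2) (adm' a b hadm)
    (fun r => R a b r) (fun r => Almost a b r) (k + 1) (by rw [Fintype.card_fin])
    (fun r m _ hm => ⟨fun p hp hpm => hm p hp (Or.inl hpm), fun i p hp hpd => hm p hp
      (Or.inr ⟨i, hpd⟩)⟩)
    (fun r m h2r hm h1 h2 => ⟨hm, fun p hp hpd => by
        rcases hpd with h3 | ⟨i, h3⟩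
        · exact Pool.Agent.TH977.PW.rpow_lt_dvd r m p h2r hm hp h3
        · exact h1 i p hp h3, h2⟩) θ hθ hθ1
  refine ⟨r0, hr0, fun r hr => ⟨?_, (h r hr).1, (h r hr).2⟩⟩
  filter_upwards [large a b ha] with q hq h1 h2
  exact hq r (hr0.trans hr) h1 h2

end Pool.Agent.Results.MP_bca3e5_nt.RegularNeighbourhoods
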