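import Pool.Agent.W182.PW.Lin

set_option autoImplicit false

/-!
# Primes `n` with almost prime `a i n + b i` in all windows around a positive proportion of the integers

Let `a i n + b i`, `i < s`, be distinct linear forms with `a i > 0`, `b i ≠ 0` (for instance `b i = 1`)
such that no prime divides `n ∏ (a i n + b i)` for all `n`. There are `r` and `c₁, c₂, K > 0` such that a
positive proportion of all integers `m` is regular: every interval `(u, v]` with `u ≤ m ≤ v` and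
`K log ^ (s + 1) m ≤ v - u ≤ m` contains between `c₁ (v - u) / log ^ (s + 1) m` and
`c₂ (v - u) / log ^ (s + 1) m` primes `n` for which all `a i n + b i` have at most `r` prime factors,
all larger than `m ^ (1 / r)`.
-/

namespace Pool.Agent.Results.MP_bca3e5_nt.RegularWindows

open Finset Filter

/-- `n` is prime and all `a i n + b i` have at most `r` prime factors (with multiplicity), all of them
larger than `z`. -/
def PrimeAlmost {s : ℕ} (a : Fin s → ℕ) (b : Fin s → ℤ) (r : ℕ) (z : ℝ) (n : ℕ) : Prop :=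
  n.Prime ∧ ∀ i, (a i * n + b i).natAbs.primeFactorsList.length ≤ r ∧
    ∀ p : ℕ, p.Prime → (p : ℤ) ∣ a i * n + b i → z < (p : ℝ)

open Classical in
/-- the number of these primes in `(u, v]` -/
noncomputable def count {s : ℕ} (a : Fin s → ℕ) (b : Fin s → ℤ) (r : ℕ) (z : ℝ) (u v : ℕ) : ℕ :=
  ((Finset.Ioc u v).filter (fun n => PrimeAlmost a b r z n)).card

/-- `m` is regular. -/
def Regular {s : ℕ} (a : Fin s → ℕ) (b : Fin s → ℤ) (r : ℕ) (c₁ c₂ K : ℝ) (m : ℕ) : Prop :=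
  ∀ u v : ℕ, u ≤ m → m ≤ v → K * Real.log m ^ (s + 1) ≤ (v : ℝ) - u → (v : ℝ) - u ≤ m →
    c₁ * ((v : ℝ) - u) / Real.log m ^ (s + 1) ≤ count a b r ((m : ℝ) ^ (1 / (r : ℝ))) u v ∧
    (count a b r ((m : ℝ) ^ (1 / (r : ℝ))) u v : ℝ) ≤ c₂ * ((v : ℝ) - u) / Real.log m ^ (s + 1)

open Pool.Agent.W182.PW (lin lin_eval RegularP main_lin)

lemma prop_eq {s : ℕ} (a : Fin s → ℕ) (b : Fin s → ℤ) :
    Pool.Agent.W182.PW.PrimeAlmost (fun i => lin (a i) (b i)) = PrimeAlmost a b := by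
  funext r z n
  apply propext
  unfold Pool.Agent.W182.PW.PrimeAlmost PrimeAlmost
  simp only [lin_eval]

open Classical in
/-- **Primes `n` with almost prime `a i n + b i`: regular windows.** -/
theorem result (s : ℕ) (a : Fin s → ℕ) (b : Fin s → ℤ) (ha : ∀ i, 0 < a i) (hb : ∀ i, b i ≠ 0)
    (hinj : ∀ i j, a i = a j → b i = b j → i = j)
    (hadm : ∀ p : ℕ, p.Prime → ∃ n : ℕ, ¬ (p : ℤ) ∣ n * ∏ i, (a i * n + b i)) :
    ∃ (r : ℕ) (c₁ c₂ K κ : ℝ), 0 < c₁ ∧ 0 < c₂ ∧ 0 < K ∧ 0 < κ ∧ ∀ᶠ x : ℕ in atTop,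
      κ * x ≤ (((Finset.Icc 1 x).filter (fun m => Regular a b r c₁ c₂ K m)).card : ℝ) := by
  have hadm' : ∀ p : ℕ, p.Prime → ∃ m : ℕ, ¬ p ∣ m ∧ ∀ i, ¬ (p : ℤ) ∣ (a i : ℤ) * m + b i := by
    intro p hp
    obtain ⟨n, hn⟩ := hadm p hp
    refine ⟨n, fun h => hn ?_, fun i h => hn ?_⟩
    · exact (Int.natCast_dvd_natCast.2 h).mul_right _
    · exact (h.trans (Finset.dvd_prod_of_mem (fun i => (a i : ℤ) * n + b i) (mem_univ i))).mul_left _
  have hcop : ∀ i, IsCoprime (a i : ℤ) (b i) := by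
    intro i
    rw [Int.isCoprime_iff_gcd_eq_one]
    by_contra hne
    obtain ⟨p, hp, hpd⟩ := Nat.exists_prime_and_dvd hne
    have h1 : (p : ℤ) ∣ (a i : ℤ) := (Int.natCast_dvd_natCast.2 hpd).trans (Int.gcd_dvd_left ..)
    have h2 : (p : ℤ) ∣ b i := (Int.natCast_dvd_natCast.2 hpd).trans (Int.gcd_dvd_right ..)
    obtain ⟨m, -, h3⟩ := hadm' p hp
    exact h3 i (dvd_add (h1.mul_right _) h2)
  have h := main_lin a b ha hcop hinj (fun i h => hb i h.2) hadm'
  have hreg : RegularP (fun i => lin (a i) (b i)) (s + 1) = Regular a b := by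
    funext r c₁ c₂ K n
    unfold RegularP Regular count
    rw [prop_eq]
  rw [hreg] at h
  exact h

end Pool.Agent.Results.MP_bca3e5_nt.RegularWindows
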