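import Pool.Agent.R528.RM.BHOut

/-!
# The question in all sequential random models of the primes

The question: for every admissible set `{a_1, …, a_s}` the number of primes `n ≤ x` such that all
`a_i n + 1` are prime is at least of the order `x / (log x)^(s + 1)`.  We prove the asymptotic formula
for this number in EVERY sequential random model of the primes: the integers are decided one after
the other, no integer divisible by an element of a finite set `Q` of primes is chosen, and the
conditional probability that `n + 1` (not divisible by an element of `Q`) is chosen, given all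
decisions up to `n`, is asymptotic to `∏_{p ∈ Q} (1 - 1/p)⁻¹ / log n`.  No independence is assumed.
Almost surely the formula holds for all sets `{a_1, …, a_s}` at once, and in fact for all systems of
integer polynomials with positive leading coefficients (the formula of Bateman and Horn, with the
local factors of the primes in `Q`).
-/

set_option autoImplicit false

open MeasureTheory Filter Polynomial
open scoped Topology

namespace Pool.Agent.Results.MP_bca3e5_nt.SequentialModels

/-- The number of the `n < x` for which all the values `f(n)`, `f ∈ P`, belong to `S`. -/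
noncomputable def polyCount (S : Set ℕ) (P : Finset ℤ[X]) (x : ℕ) : ℕ :=
  {n : ℕ | n < x ∧ ∀ f ∈ P, ∃ a ∈ S, (a : ℤ) = f.eval (n : ℤ)}.ncard

/-- The number of the residues `r` modulo `p` with `∏_{f ∈ P} f(r) ≡ 0` modulo `p`. -/
noncomputable def omega (P : Finset ℤ[X]) (p : ℕ) : ℕ :=
  {r : ℕ | r < p ∧ (p : ℤ) ∣ ∏ f ∈ P, f.eval (r : ℤ)}.ncard

/-- The number of the `n < x` such that `n` and all `a n + 1`, `a ∈ T`, belong to `S`. -/
noncomputable def count (S : Set ℕ) (T : Finset ℕ) (x : ℕ) : ℕ :=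
  {n : ℕ | n < x ∧ n ∈ S ∧ ∀ a ∈ T, a * n + 1 ∈ S}.ncard

/-- The number of the residues `r` modulo `p` with `r ∏_{a ∈ T} (a r + 1) ≡ 0` modulo `p`. -/
noncomputable def omegaLin (T : Finset ℕ) (p : ℕ) : ℕ :=
  {r : ℕ | r < p ∧ p ∣ r * ∏ a ∈ T, (a * r + 1)}.ncard

/-- `T` is admissible: no prime divides `n ∏_{a ∈ T} (a n + 1)` for all `n ≥ 1`. -/
def Admissible (T : Finset ℕ) : Prop :=
  ∀ p : ℕ, p.Prime → ∃ n : ℕ, 1 ≤ n ∧ ¬ p ∣ n * ∏ a ∈ T, (a * n + 1)

/-- The polynomials `x` and `a x + 1`, `a ∈ T`. -/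
noncomputable def system (T : Finset ℕ) : Finset ℤ[X] :=
  insert X (T.image fun a : ℕ => C (a : ℤ) * X + 1)

theorem X_notMem (T : Finset ℕ) : (X : ℤ[X]) ∉ T.image fun a : ℕ => C (a : ℤ) * X + 1 := by
  intro h
  obtain ⟨a, -, ha⟩ := Finset.mem_image.1 h
  have := congrArg (fun f => f.eval (0 : ℤ)) ha
  simp at this

theorem inj : Function.Injective fun a : ℕ => (C (a : ℤ) * X + 1 : ℤ[X]) := by
  intro a b h
  have := congrArg (fun f => f.eval (1 : ℤ)) h
  simp at this
  exact_mod_cast this

theorem card_system (T : Finset ℕ) : (system T).card = T.card + 1 := by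
  rw [system, Finset.card_insert_of_notMem (X_notMem T), Finset.card_image_of_injective _ inj]

theorem polyCount_system (S : Set ℕ) (T : Finset ℕ) (x : ℕ) :
    polyCount S (system T) x = count S T x := by
  unfold polyCount count
  congr 1
  ext n
  simp only [Set.mem_ofPred_eq, system, Finset.mem_insert, Finset.mem_image, forall_eq_or_imp,
    forall_exists_index, and_imp, forall_apply_eq_imp_iff₂, eval_X, eval_add, eval_mul, eval_C,
    eval_one]
  constructor
  · rintro ⟨h1, ⟨b, hb, hbn⟩, h2⟩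
    refine ⟨h1, ?_, fun a ha => ?_⟩
    · have : b = n := by exact_mod_cast hbn
      rwa [← this]
    · obtain ⟨c, hc, hcn⟩ := h2 a ha
      have : c = a * n + 1 := by exact_mod_cast hcn
      rwa [← this]
  · rintro ⟨h1, h2, h3⟩
    exact ⟨h1, ⟨n, h2, rfl⟩, fun a ha => ⟨a * n + 1, h3 a ha, by push_cast; ring⟩⟩

theorem omega_system (T : Finset ℕ) (p : ℕ) : omega (system T) p = omegaLin T p := by
  unfold omega omegaLin
  congr 1
  ext r
  simp only [Set.mem_ofPred_eq, system, Finset.prod_insert (X_notMem T),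
    Finset.prod_image (fun a _ b _ h => inj h), eval_X, eval_add, eval_mul, eval_C, eval_one]
  refine and_congr_right fun _ => ?_
  have : ((r : ℤ) * ∏ a ∈ T, ((a : ℤ) * (r : ℤ) + 1)) = ((r * ∏ a ∈ T, (a * r + 1) : ℕ) : ℤ) := by
    push_cast
    ring
  rw [this, Int.natCast_dvd_natCast]

theorem omegaLin_lt {T : Finset ℕ} (hT : Admissible T) {p : ℕ} (hp : p.Prime) :
    omegaLin T p < p := by
  obtain ⟨n, -, hn⟩ := hT p hp
  have hsub : {r : ℕ | r < p ∧ p ∣ r * ∏ a ∈ T, (a * r + 1)} ⊂ (Finset.range p : Set ℕ) := by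
    refine ⟨fun r hr => by simpa using hr.1, fun h => ?_⟩
    have h1 := h (show n % p ∈ (Finset.range p : Set ℕ) by simpa using Nat.mod_lt _ hp.pos)
    apply hn
    have h2 : (n * ∏ a ∈ T, (a * n + 1)) ≡ (n % p * ∏ a ∈ T, (a * (n % p) + 1)) [MOD p] := by
      have h3 : n ≡ n % p [MOD p] := (Nat.mod_modEq n p).symm
      refine h3.mul ?_
      refine Nat.ModEq.prod fun a _ => ?_
      exact (h3.mul_left a).add_right 1
    exact (h2.dvd_iff dvd_rfl).2 h1.2
  have := Set.ncard_lt_ncard hsub (Finset.finite_toSet _)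
  rwa [Set.ncard_coe_finset, Finset.card_range] at this

/-- **Prime values of `a_i n + 1` along primes `n`, in every sequential random model.**  Let `A n` be
the event that `n` is chosen, adapted to a filtration `ℱ`, let `Q` be a finite set of primes, let no
integer divisible by an element of `Q` be chosen, and let the conditional probability of `A (n + 1)`
given `ℱ n`, times `log n`, tend to `∏_{p ∈ Q} (1 - 1/p)⁻¹` along the `n` for which no element of `Q`
divides `n + 1`, almost surely.  Let `S` be the random set of the chosen integers.  Almost surely: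

(1) for every finite set `T` of positive integers the number of the `n < x` in `S` for which all
`a n + 1`, `a ∈ T`, are in `S` is asymptotic to `c x / (log x)^(|T| + 1)`, where
`c = ∏_{p ∈ Q} (1 - ω(p)/p) (1 - 1/p)^(-|T|-1)`, and `c > 0` if `T` is admissible;

(2) for every finite set `P` of integer polynomials of positive degrees `d_f` with positive leading
coefficients the number of the `n < x` with `f(n) ∈ S` for all `f ∈ P` is asymptotic to
`c x / (log x)^|P|`, where `c = ∏_{p ∈ Q} (1 - ω_P(p)/p) (1 - 1/p)^(-|P|) ∏_{f ∈ P} 1 / d_f`. -/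
theorem result {Ω : Type} [mΩ : MeasurableSpace Ω] (μ : Measure Ω) [IsProbabilityMeasure μ]
    (ℱ : Filtration ℕ mΩ) (A : ℕ → Set Ω) (hA : ∀ n, MeasurableSet[ℱ n] (A n))
    (Q : Finset ℕ) (hQ : ∀ p ∈ Q, p.Prime) (hcop : ∀ n, (∃ p ∈ Q, p ∣ n) → A n = ∅)
    (hd : ∀ᵐ ω ∂μ, Tendsto (fun n : ℕ =>
      (μ[(A (n + 1)).indicator (fun _ => (1 : ℝ)) | ℱ n]) ω * Real.log n)
      (atTop ⊓ 𝓟 {n : ℕ | ∀ p ∈ Q, ¬ p ∣ n + 1}) (𝓝 (∏ p ∈ Q, (1 - 1 / (p : ℝ))⁻¹))) :
    (∀ᵐ ω ∂μ, ∀ T : Finset ℕ, (∀ a ∈ T, 0 < a) →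
      Tendsto (fun x : ℕ => (count {n | ω ∈ A n} T x : ℝ) * Real.log x ^ (T.card + 1) / x) atTop
        (𝓝 (∏ p ∈ Q, (1 - (omegaLin T p : ℝ) / p) / (1 - 1 / (p : ℝ)) ^ (T.card + 1)))) ∧
    (∀ T : Finset ℕ, Admissible T →
      0 < ∏ p ∈ Q, (1 - (omegaLin T p : ℝ) / p) / (1 - 1 / (p : ℝ)) ^ (T.card + 1)) ∧
    (∀ᵐ ω ∂μ, ∀ P : Finset ℤ[X], (∀ f ∈ P, 0 < f.natDegree ∧ 0 < f.leadingCoeff) →
      Tendsto (fun x : ℕ => (polyCount {n | ω ∈ A n} P x : ℝ) * Real.log x ^ P.card / x) atTop
        (𝓝 ((∏ p ∈ Q, (1 - (omega P p : ℝ) / p) / (1 - 1 / (p : ℝ)) ^ P.card) *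
          ∏ f ∈ P, ((f.natDegree : ℝ))⁻¹))) := by
  have h := Pool.Agent.R528.RM.bh_final (μ := μ) (ℱ := ℱ) hA Q hQ hcop hd
  refine ⟨?_, ?_, h⟩
  · filter_upwards [h] with ω hω T hT
    have h1 := hω (system T) (by
      intro f hf
      rw [system, Finset.mem_insert, Finset.mem_image] at hf
      rcases hf with rfl | ⟨a, ha, rfl⟩
      · simp
      · have ha0 : (a : ℤ) ≠ 0 := by exact_mod_cast (hT a ha).ne'
        have e1 : (C (a : ℤ) * X + 1 : ℤ[X]) = C (a : ℤ) * X + C 1 := by simp
        rw [e1, natDegree_linear ha0, leadingCoeff_linear ha0]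
        exact ⟨one_pos, by exact_mod_cast hT a ha⟩)
    have h2 : ∏ f ∈ system T, ((f.natDegree : ℝ))⁻¹ = 1 := by
      refine Finset.prod_eq_one fun f hf => ?_
      rw [system, Finset.mem_insert, Finset.mem_image] at hf
      rcases hf with rfl | ⟨a, ha, rfl⟩
      · simp
      · have ha0 : (a : ℤ) ≠ 0 := by exact_mod_cast (hT a ha).ne'
        have e1 : (C (a : ℤ) * X + 1 : ℤ[X]) = C (a : ℤ) * X + C 1 := by simp
        rw [e1, natDegree_linear ha0]
        simp
    rw [h2, mul_one, card_system] at h1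
    have h3 : ∀ p, Pool.Agent.R528.RM.omegaF (system T) p = omegaLin T p := omega_system T
    have h4 : ∀ x, Pool.Agent.R528.RM.polyCount {a | ω ∈ A a} (system T) x =
        count {n | ω ∈ A n} T x := polyCount_system _ T
    simp only [h3, h4] at h1
    exact h1
  · intro T hT
    refine Finset.prod_pos fun p hp => ?_
    have h1 := omegaLin_lt hT (hQ p hp)
    have h2 : (1 : ℝ) < p := by exact_mod_cast (hQ p hp).one_lt
    have h3 : (omegaLin T p : ℝ) < p := by exact_mod_cast h1
    have h4 : (0 : ℝ) < p := by linarith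
    apply div_pos
    · rw [sub_pos, div_lt_one h4]
      exact h3
    · apply pow_pos
      rw [sub_pos, div_lt_one h4]
      exact h2

end Pool.Agent.Results.MP_bca3e5_nt.SequentialModels
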